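import Pool.Agent.D0H63.AR.Main
import Pool.Agent.Y771.RP.Nest

/-!
# Periods of all the conjugate fibres of a family of products of elliptic curves, over the algebraic points near to generic points

Let `α_N < ⋯ < α_0 < γ_0 < ⋯ < γ_N` be real numbers, and let `s_i`, `i = 0, …, N`, be the Moebius function with
`s_i(α_i) = 0`, `s_i(γ_i) = 1` given by `s_i(t) = (t - α_i) / (γ_i - α_i + κ_i (t - γ_i))`, `κ_i < 1`. As in the starting file
`SmallDiscs` we consider the family over the `t`-line with the fibres `X_t = E_{s_0(t)} × ⋯ × E_{s_N(t)}`, where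
`E_λ : y² = x (x - 1) (x - λ)`; for `κ_i = 0` the curve `E_{s_i(t)}` is isomorphic over an algebraic closure to
`y² = (x - α_i) (x - γ_i) (x - t)`. For algebraic `α_i`, `γ_i`, `κ_i` and algebraic `t` the field generated by the periods of the
fibre is, up to algebraic numbers, generated by `π` and the `3 (N + 1)` numbers `K(s_i(t))`, `E(s_i(t))`, `K(1 - s_i(t))`; the
conjecture says that these `3 (N + 1) + 1` numbers are algebraically independent for all algebraic `t` outside the Hodge locus, and
(applied to the restriction of scalars) so are the numbers `K(s_i(t))`, `E(s_i(t))`, `K(1 - s_i(t))` for all the conjugates of `t`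
together with `π`.

Let `g ≥ 1`, let `ξ_0, ξ_1, …` be given complex numbers (for instance the powers of `π`), and `τ > 0`.

(1) There is a set `E` of Hausdorff dimension at most `g / τ` in `ℝ^g` (a null set if `τ > 1`) such that for all `ω` outside of `E` for
which `X^g + ω_(g-1) X^(g-1) + … + ω_0` has simple roots, different from `α_0` and `γ_0`, and for all `k` and `C`, for all large
`T`: for ALL integral polynomials `a_g X^g + … + a_0` with `|a_i| ≤ T` and `|ω_i - a_i / a_g| ≤ C T^(-τ)`, the
numbers `K(s_i(t))`, `E(s_i(t))`, `K(1 - s_i(t))` for ALL the roots `t` of the polynomial outside `(-∞, α_0]` and `[γ_0, ∞)` together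
satisfy no relation of degree at most `k` in each of them with coefficients `∑_{b < k} ξ_b c_b`, `c_b` integers of size at most
`T^k` of a number field of degree at most `k`. By Dirichlet's theorem there are, for `τ = 1 + 1 / g` and for every `ω`, such
polynomials for arbitrarily large `T`. So the statement is true for the best rational approximations of almost every real
polynomial.

(2) There is a set `E` of Hausdorff dimension at most `g / τ` in `ℂ` such that for all `t₀` outside of `E`, for all `k`, `C`, `R` and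
`η > 0`, for all large `T`: the same is true for ALL integral polynomials of degree `g` with coefficients at most `T`, one root of
which is within `C T^(-τ)` of `t₀`, and the roots of which are at most `R`, at distance at least `η` from each other and (those in the
domain) from the rays. The real numbers in `E` form a null set if `τ > g`, while (by the theorem of Sprindzhuk) for almost all
real `t₀` and every `τ < g + 1` there are infinitely many algebraic numbers of degree `g` with `|t₀ - t| ≤ H(t)^(-τ)`.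

The starting files of this problem treat the fibres over the elements of number fields of bounded degree (not their conjugates) near
to a given point (`NearEveryPoint`), and the conjugates of the coefficients over a fixed number field (`ConjugateHyperelliptic`); here
the algebraic numbers of degree `g` generate different fields, and all their conjugates are considered at the same time. Proof: the
exceptional polynomials lie on `C T^ε` hypersurfaces (`Pool.Agent.X255.RH.excR_cov`), and so there are at most `C T^(g + ε)` of them,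
which is the number in the lemma of Hausdorff and Cantelli (`Pool.Agent.D0H63.AR`); the algebraic independence of the functions is
`Pool.Agent.Y771.RP.fN_locInd`.
-/

set_option autoImplicit false

namespace Pool.Agent.Results.MP_5591bc_ag.ConjugateFibres

open Filter Polynomial MeasureTheory NumberField Topology

/-- The integral of `(1 - λ sin² θ) ^ s` over `[0, π/2]`: the complete elliptic integral `K(λ)` for `s = -1/2`, and `E(λ)`
for `s = 1/2`. -/
noncomputable def ell (s lam : ℂ) : ℂ :=
  ∫ θ in (0 : ℝ)..(Real.pi / 2), (1 - lam * (Real.sin θ : ℂ) ^ 2) ^ s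

/-- The Moebius function with the values `0` and `1` at `α` and `γ`. -/
noncomputable def moebius (α γ κ : ℝ) (t : ℂ) : ℂ := (t - α) / ((γ - α) + κ * (t - γ))

/-- The numbers `K(λ)`, `E(λ)`, `K(1 - λ)`, where `λ = s_i(t)`. -/
noncomputable def periods {N : ℕ} (α γ κ : Fin (N + 1) → ℝ) (t : ℂ) (y : Fin (N + 1) × Fin 3) : ℂ :=
  ![ell (-(1 / 2)) (moebius (α y.1) (γ y.1) (κ y.1) t), ell (1 / 2) (moebius (α y.1) (γ y.1) (κ y.1) t),
    ell (-(1 / 2)) (1 - moebius (α y.1) (γ y.1) (κ y.1) t)] y.2

/-- The parameters `α_N < ⋯ < α_0 < γ_0 < ⋯ < γ_N` and `κ_i < 1` of a family of products of elliptic curves. -/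
structure Family {N : ℕ} (α γ κ : Fin (N + 1) → ℝ) : Prop where
  anti : StrictAnti α
  mono : StrictMono γ
  lt : α 0 < γ 0
  kappa : ∀ i, κ i < 1

/-- The plane without the real rays `(-∞, α]` and `[γ, ∞)`. -/
def Plane (α γ : ℝ) : Set ℂ := {t | t.im = 0 → α < t.re ∧ t.re < γ}

/-- The polynomial `a_0 + a_1 x + … + a_g x^g`. -/
noncomputable def poly {g : ℕ} (a : Fin (g + 1) → ℤ) : ℂ[X] := ∑ i, C (a i : ℂ) * X ^ (i : ℕ)

/-- The roots of the polynomial outside `(-∞, α]` and `[γ, ∞)`. -/
noncomputable def rootsIn {g : ℕ} (α γ : ℝ) (a : Fin (g + 1) → ℤ) : Finset ℂ := by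
  classical exact (poly a).roots.toFinset.filter fun z => z ∈ Plane α γ

/-- The numbers `x q` satisfy no relation of degree at most `k` in each of them with coefficients `∑_{b < k} ξ_b c_b`, where the `c_b` are
integers of a number field of degree at most `k` all of whose conjugates are at most `T ^ k`, except the relations all of whose coefficients
vanish. -/
def NoRelation {Q : Type} [Fintype Q] [DecidableEq Q] (ξ : ℕ → ℂ) (k : ℕ) (T : ℝ) (x : Q → ℂ) : Prop :=
  ∀ (F : Type) [Field F] [NumberField F], Module.finrank ℚ F ≤ k → ∀ (io : F →+* ℂ)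
    (c : (Q → Fin (k + 1)) → Fin k → 𝓞 F), (∀ l b (φ : F →+* ℂ), ‖φ (c l b : F)‖ ≤ T ^ k) →
    ∑ l, (∑ b : Fin k, ξ b * io (c l b : F)) * ∏ q, x q ^ (l q : ℕ) = 0 → ∀ l, ∑ b : Fin k, ξ b * io (c l b : F) = 0

/-- There is no relation of degree at most `k` in each of them between the numbers `K(s_i(t))`, `E(s_i(t))`, `K(1 - s_i(t))` for all
`i` and all the roots `t` of the polynomial with the coefficients `a` outside `(-∞, α_0]` and `[γ_0, ∞)`. -/
def Unrelated {N g : ℕ} (α γ κ : Fin (N + 1) → ℝ) (ξ : ℕ → ℂ) (k : ℕ) (T : ℝ) (a : Fin (g + 1) → ℤ) : Prop :=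
  NoRelation ξ k T fun q : {t // t ∈ rootsIn (α 0) (γ 0) a} × (Fin (N + 1) × Fin 3) => periods α γ κ q.1 q.2

/-- the polynomial `X^g + ω_(g-1) X^(g-1) + … + ω_0` -/
noncomputable def monic {g : ℕ} (ω : Fin g → ℝ) : ℂ[X] := X ^ g + ∑ i, C (ω i : ℂ) * X ^ (i : ℕ)

/-- the polynomial is of degree `g`, its roots are of absolute value at most `R`, at distance at least `η` from each other, and the
roots outside of the rays `(-∞, α]` and `[γ, ∞)` at distance at least `η` from these rays -/
def Position {g : ℕ} (α γ R η : ℝ) (a : Fin (g + 1) → ℤ) : Prop :=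
  ∃ z : Fin g → ℂ, (a (Fin.last g) ≠ 0 ∧ poly a = C (a (Fin.last g) : ℂ) * ∏ j, (X - C (z j))) ∧ (∀ i, ‖z i‖ ≤ R) ∧
    (∀ i j, i ≠ j → η ≤ ‖z i - z j‖) ∧ ∀ i, z i ∈ Plane α γ → Metric.ball (z i) η ⊆ Plane α γ

theorem periods_eq {N : ℕ} (α γ κ : Fin (N + 1) → ℝ) :
    (fun (y : Fin (N + 1) × Fin 3) t => periods α γ κ t y) = Y771.RP.fN α γ κ := by
  funext y t
  obtain ⟨i, k⟩ := y
  fin_cases k <;> rfl

theorem isOpen_plane (α γ : ℝ) : IsOpen (Plane α γ) := by
  have h1 : Plane α γ = {t : ℂ | t.im ≠ 0} ∪ ({t : ℂ | α < t.re} ∩ {t : ℂ | t.re < γ}) := by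
    ext t
    simp only [Plane, Set.mem_ofPred_eq, Set.mem_union, Set.mem_inter_iff]
    tauto
  rw [h1]
  exact (isOpen_ne_fun Complex.continuous_im continuous_const).union
    ((isOpen_lt continuous_const Complex.continuous_re).inter (isOpen_lt Complex.continuous_re continuous_const))

theorem norm_real_sub {z : ℂ} (hz : z.im = 0) (x : ℝ) : ‖z - x‖ = |z.re - x| := by
  have h : z - x = ((z.re - x : ℝ) : ℂ) := Complex.ext (by simp) (by simp [hz])
  rw [h, Complex.norm_real, Real.norm_eq_abs]

theorem bdry (α γ : ℝ) : Pool.Agent.D0H63.AR.Bdry {(α : ℂ), (γ : ℂ)} 1 (Plane α γ) (Plane α γ) := by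
  refine ⟨one_pos, fun R => (Set.toFinite _).subset Set.inter_subset_left, fun z hz w hw => ?_⟩
  have hw1 : w.im = 0 := by
    by_contra h
    exact hw fun h' => absurd h' h
  have hw2 : w.re ≤ α ∨ γ ≤ w.re := by
    by_contra h
    push Not at h
    exact hw fun _ => h
  by_cases hzi : z.im = 0
  · left
    obtain ⟨h1, h2⟩ := hz hzi
    have h3 : |z.re - w.re| ≤ ‖z - w‖ := by
      have := Complex.abs_re_le_norm (z - w)
      rwa [Complex.sub_re] at this
    rcases hw2 with h | h
    · refine ⟨(α : ℂ), Or.inl rfl, ?_⟩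
      rw [norm_real_sub hzi]
      refine le_trans ?_ h3
      rw [abs_of_nonneg (by linarith), abs_of_nonneg (by linarith)]
      linarith
    · refine ⟨(γ : ℂ), Or.inr rfl, ?_⟩
      rw [norm_real_sub hzi]
      refine le_trans ?_ h3
      rw [abs_of_nonpos (by linarith), abs_of_nonpos (by linarith)]
      linarith
  · right
    left
    refine ⟨hzi, ?_⟩
    have h1 := Complex.abs_im_le_norm (z - w)
    rwa [Complex.sub_im, hw1, sub_zero] at h1

theorem an {N : ℕ} {α γ κ : Fin (N + 1) → ℝ} (hF : Family α γ κ) (y : Fin (N + 1) × Fin 3) :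
    AnalyticOnNhd ℂ ((fun (y : Fin (N + 1) × Fin 3) t => periods α γ κ t y) y) (Plane (α 0) (γ 0)) := by
  rw [periods_eq]
  exact fun t ht => Y771.RP.fN_an α γ κ hF.anti hF.mono hF.lt hF.kappa y t ht

theorem ind {N : ℕ} {α γ κ : Fin (N + 1) → ℝ} (hF : Family α γ κ) :
    Pool.Agent.X255.RH.Indep (Plane (α 0) (γ 0)) (fun (y : Fin (N + 1) × Fin 3) t => periods α γ κ t y) := by
  refine Pool.Agent.X255.RH.indep_of_aindepS fun P hP => ?_
  have ht0 : ((((α 0 + γ 0) / 2 : ℝ)) : ℂ) ∈ Plane (α 0) (γ 0) := by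
    intro _
    have := hF.lt
    rw [Complex.ofReal_re]
    constructor <;> linarith
  refine Y771.RP.fN_locInd α γ κ hF.anti hF.mono hF.lt hF.kappa _ ht0 P ?_
  filter_upwards [(isOpen_plane (α 0) (γ 0)).mem_nhds ht0] with t ht
  rw [← periods_eq]
  exact hP t ht

/-- **Theorem.** Let `α_N < ⋯ < α_0 < γ_0 < ⋯ < γ_N`, `κ_i < 1`, `g ≥ 1`, `τ > 0`, and let `ξ_0, ξ_1, …` be complex numbers.
(1) There is a set `E ⊂ ℝ^g` of Hausdorff dimension at most `g / τ` such that for all `ω` outside of `E` for which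
`X^g + ω_(g-1) X^(g-1) + … + ω_0` has simple roots different from `α_0` and `γ_0`, all `k` and `C`, for all large `T`, for all
integral `a_0, …, a_g` with `|a_i| ≤ T`, `a_g ≠ 0` and `|ω_i - a_i / a_g| ≤ C T^(-τ)`: the numbers `K(s_i(t))`, `E(s_i(t))`,
`K(1 - s_i(t))` at all the roots `t` outside of the rays are unrelated. `E` is a null set if `τ > 1`.
(2) There is a set `E ⊂ ℂ` of Hausdorff dimension at most `g / τ` such that for all `t₀` outside of `E`, all `k`, `C`, `R` and
`η > 0`, for all large `T`, the same is true for all integral polynomials with coefficients at most `T`, roots in position `(R, η)`, and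
a root within `C T^(-τ)` of `t₀`. The real numbers in `E` are a null set if `τ > g`. -/
theorem result {N : ℕ} (α γ κ : Fin (N + 1) → ℝ) (hF : Family α γ κ) (g : ℕ) (hg : 0 < g) (ξ : ℕ → ℂ) (τ : ℝ)
    (hτ : 0 < τ) :
    (∃ E : Set (Fin g → ℝ), dimH E ≤ ENNReal.ofReal (g / τ) ∧ (1 < τ → volume E = 0) ∧
      ∀ ω ∉ E, (monic ω).Separable → (monic ω).eval ((α 0 : ℝ) : ℂ) ≠ 0 → (monic ω).eval ((γ 0 : ℝ) : ℂ) ≠ 0 →
        ∀ (k : ℕ) (C : ℝ), ∀ᶠ T : ℝ in atTop,
          ∀ a : Fin (g + 1) → ℤ, (∀ i, |(a i : ℝ)| ≤ T) → a (Fin.last g) ≠ 0 →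
            (∀ i : Fin g, |ω i - (a i.castSucc : ℝ) / a (Fin.last g)| ≤ C * T ^ (-τ)) → Unrelated α γ κ ξ k T a) ∧
    (∃ E : Set ℂ, dimH E ≤ ENNReal.ofReal (g / τ) ∧ ((g : ℝ) < τ → volume {x : ℝ | (x : ℂ) ∈ E} = 0) ∧
      ∀ t₀ ∉ E, ∀ (k : ℕ) (C R η : ℝ), 0 < η → ∀ᶠ T : ℝ in atTop,
        ∀ a : Fin (g + 1) → ℤ, (∀ i, |(a i : ℝ)| ≤ T) → Position (α 0) (γ 0) R η a →
          (∃ z, (poly a).eval z = 0 ∧ ‖t₀ - z‖ ≤ C * T ^ (-τ)) → Unrelated α γ κ ξ k T a) := by
  classical
  have hg' : (0 : ℝ) < g := by exact_mod_cast hg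
  refine ⟨?_, ?_⟩
  · obtain ⟨E, hE, hE'⟩ := D0H63.AR.near_poly hg (Y771.RP.isPreconnected_Om hF.lt) (isOpen_plane (α 0) (γ 0)) (an hF)
      (ind hF) (bdry (α 0) (γ 0)) ξ hτ
    refine ⟨E, hE, fun h1 => ?_, fun ω hω hsep h0 h1 k C => ?_⟩
    · refine N251.LF.null_of_dim hE ?_ (by rw [Fintype.card_fin]; exact hg)
      rw [Fintype.card_fin, div_lt_iff₀ hτ]
      nlinarith
    · have h2 := hE' ω hω hsep (by
        rintro p (rfl | hp)
        · exact h0
        · rw [Set.mem_singleton_iff.1 hp]
          exact h1) k C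
      exact h2.mono fun T hT a ha ha0 hclose => hT a ha ha0 hclose
  · obtain ⟨E, hE, hE'⟩ := D0H63.AR.near_number hg (Y771.RP.isPreconnected_Om hF.lt) (isOpen_plane (α 0) (γ 0)) (an hF)
      (ind hF) (Plane (α 0) (γ 0)) ξ hτ
    refine ⟨E, hE, fun h1 => ?_, fun t₀ ht k C R η hη => ?_⟩
    · refine D0H63.AR.null_line hE ?_
      rw [div_lt_one hτ]
      exact h1
    · have h2 := hE' t₀ ht k C R η hη
      exact h2.mono fun T hT a ha hpos hz => hT a ha hpos hz

end Pool.Agent.Results.MP_5591bc_ag.ConjugateFibres
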