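import Pool.Agent.D0H63.MR.NearPair
import Pool.Agent.Y890.SM.Inst

/-!
# The periods of ALL fibres over good approximations, over all number fields, of almost every point of the base

Let `F` be a family with symplectic monodromy over an open subset `U` of `ℂ ^ X`, `d = |X|` (`SympFam`, see the starting file
`MP_77d3f5_ag/SymplecticMonodromy`): period matrices `P i x` of analytic functions, the relations of Riemann and Legendre
`P i * Q i * (P i)ᵀ = (2 π i) ^ w i J i` with `Q i` over `ℚ̄[x]`, and a Zariski dense monodromy in the product of the symplectic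
groups of the `J i`. The fibre of the torsor `B_P` over `x` (with `2 π i` as an additional coordinate) is `F.torsor x`.

Let `ξ` be a point of `U` and `K ⊂ ℂ` a number field of degree `N`. We consider the fibres over ALL points `x` with coordinates
in `K` which are near to `ξ`. By Minkowski's theorem there are for every `T` integers `q ≠ 0`, `p_j` of `K`, all conjugates at
most `T`, for which `|ξ_j - p_j / q|` is about `T ^ (-σ N)` with `σ = (1 + 1 / d) / 2` if `K` is not real and with
`σ = 1 + 1 / d` if `K` and `ξ` are real (for one parameter: `σ = 1`, `σ = 2`).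

Theorem. There is a function `ω(T)` which tends to infinity such that for all `σ > 0` and all sequences `c` of complex numbers
all `ξ` in `U` but a set of Hausdorff dimension at most `d / σ` have the following property. For ALL number fields `K` and `L`
in `ℂ`, all `C` and all large `T`: if `q ≠ 0` and the `p_j` are integers of `K`, all conjugates of which are at most `T`, and
`|ξ_j - p_j / q| ≤ C T ^ (-σ [K : ℚ])`, then all the relations of degree at most `ω(T)` in each entry, with coefficients in the
integers of `L` of size at most `T ^ ω(T)`, between the periods at `x = p / q` and the powers of `2 π i` (the constants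
`c_a`), `a < ω(T)`, are consequences of the relations of Riemann and Legendre. For `σ > 1 / 2` this is true for almost all
`ξ` in `U`, and for `σ > 1` for almost all real `ξ` in `U`. So with these bounds for the heights the degree-`δ` version is
true for all `δ` at all these points, also for relations over larger fields, so over `ℚ̄`.
If the `x_j` are arbitrary quotients of integers of `K` with conjugates at most `T` (the denominators depend on `j`), the same
is true with the dimension `2 (d - 1) / σ`; for one parameter the exceptional set has the dimension `0` for every `σ > 0`.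

The starting file covers the exceptional points of height at most `T` by few hypersurfaces of small degree; this excludes
nothing near a given `ξ`, and the points which are considered here are very sparse. Examples of families with symplectic
monodromy are all products of hyperelliptic curves with arbitrary branch points.
-/

set_option autoImplicit false

namespace Pool.Agent.Results.MP_5591bc_ag.FieldApproximations

open Filter NumberField MeasureTheory Pool.Agent Pool.Agent.Y890.SM

variable {X : Type} [Fintype X] {ι : Type} {n : ι → ℕ} [Fintype ι] [DecidableEq ι]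

/-- the points `x j = p j / q`, where `q ≠ 0` and the `p j` are integers of `K` all the conjugates of which are at most `T` -/
def Common {X : Type} (K : Type) [Field K] [NumberField K] (T : ℝ) : Set (X → K) :=
  {x | ∃ (q : 𝓞 K) (p : X → 𝓞 K), q ≠ 0 ∧ house (q : K) ≤ T ∧ ∀ j, house (p j : K) ≤ T ∧ x j = (p j : K) / q}

/-- the points all the coordinates of which are quotients of integers of `K` all the conjugates of which are at most `T` -/
def Independent {X : Type} (K : Type) [Field K] [NumberField K] (T : ℝ) : Set (X → K) :=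
  {x | ∀ j, ∃ p q : 𝓞 K, q ≠ 0 ∧ house (p : K) ≤ T ∧ house (q : K) ≤ T ∧ x j = (p : K) / q}

/-- For all number fields `K` and `L` in `ℂ`, all `C` and all large `T`: for all the points `x` in `S K T` which are within
`C T ^ (-σ [K : ℚ])` of `ξ` in each coordinate the relations over `L` of degree at most `ω T` and of size at most
`T ^ ω T` between the periods at `x` and the powers of `2 π i`, respectively the constants `c a`, hold on the torsor. -/
def Good (F : SympFam X n) (ω : ℝ → ℕ) (c : ℕ → ℂ) (σ : ℝ)
    (S : ∀ (K : Type) [Field K] [NumberField K], ℝ → Set (X → K)) (ξ : X → ℂ) : Prop :=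
  ∀ (K L : IntermediateField ℚ ℂ) [NumberField K] [NumberField L] (C : ℝ), ∀ᶠ T : ℝ in atTop, ∀ x ∈ S K T,
    (∀ j, ‖ξ j - (x j : ℂ)‖ ≤ C * T ^ (-(σ * Module.finrank ℚ K))) →
      F.Generic (ω T) L (algebraMap L ℂ) (fun a => c a) T (fun j => (x j : ℂ))

theorem generic_mono {F : SympFam X n} {k : ℕ} {K : Type} [Field K] [NumberField K] {io : K →+* ℂ} {ξ : Fin k → ℂ}
    {T T' : ℝ} (hT : 0 ≤ T) (h : T ≤ T') {x : X → ℂ} (hG : F.Generic k K io ξ T' x) : F.Generic k K io ξ T x := by
  intro c hc
  exact hG c fun l a φ => (hc l a φ).trans (pow_le_pow_left₀ hT h k)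

theorem generic_sub {F : SympFam X n} {k : ℕ} {L M : Type} [Field L] [NumberField L] [Field M] [NumberField M]
    (f : L →+* M) {io : L →+* ℂ} {io' : M →+* ℂ} (hio : ∀ a, io' (f a) = io a) {ξ : Fin k → ℂ} {T : ℝ}
    {x : X → ℂ} (hG : F.Generic k M io' ξ T x) : F.Generic k L io ξ T x := by
  intro c hc
  have h := hG (fun l a => RingOfIntegers.mapRingHom f (c l a)) (fun l a φ => hc l a (φ.comp f))
  have e : ∀ l a, io' ((RingOfIntegers.mapRingHom f (c l a) : 𝓞 M) : M) = io (c l a : L) := fun l a => hio _
  simp only [e] at h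
  exact h

theorem main [DecidableEq X] [Nonempty X] (F : SympFam X n) : ∃ ω : ℝ → ℕ, Tendsto ω atTop atTop ∧
    ∀ (σ : ℝ), 0 < σ → ∀ c : ℕ → ℂ,
      (∃ E : Set (X → ℂ), dimH E ≤ ENNReal.ofReal (Fintype.card X / σ) ∧ ∀ ξ ∈ F.U, ξ ∉ E →
        Good F ω c σ (fun K _ _ T => Common K T) ξ) ∧
      (∃ E : Set (X → ℂ), dimH E ≤ ENNReal.ofReal (2 * ((Fintype.card X : ℝ) - 1) / σ) ∧ ∀ ξ ∈ F.U, ξ ∉ E →
        Good F ω c σ (fun K _ _ T => Independent K T) ξ) := by
  classical
  obtain ⟨ω, T₀, hω, -, H⟩ := F.main
  refine ⟨fun T => ω (2 ^ D0H63.MR.lv T), hω.comp D0H63.MR.two_lv_tendsto, fun σ hσ c => ?_⟩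
  obtain ⟨⟨E, h1, h2⟩, E', h1', h2'⟩ := D0H63.MR.near_pair F.U F.isOpen ω hω
    (fun L T x => ∀ _ : NumberField L, F.Generic (ω T) L (algebraMap L ℂ) (fun a => c a) T x)
    (fun L M _ _ T x hLM hG _ => by
      have hM : NumberField M := inferInstance
      exact generic_sub (IntermediateField.inclusion hLM).toRingHom (fun a => rfl) (hG hM))
    ⟨T₀, fun T hT K _ hK => by
      obtain ⟨-, h1⟩ := H T hT
      obtain ⟨h2, -, -⟩ := h1 K hK (algebraMap K ℂ) (fun a => c a)
      refine h2.mono le_rfl le_rfl (Set.image_mono ?_)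
      rintro e ⟨h5, h6, h7⟩
      exact ⟨h5, h6, fun h8 => h7 fun _ => h8⟩⟩ hσ
  refine ⟨⟨E, h1, fun ξ hξ hξE K L _ _ C => ?_⟩, E', h1', fun ξ hξ hξE K L _ _ C => ?_⟩
  · filter_upwards [h2 ξ hξ hξE K L C, eventually_ge_atTop 1] with T hT hT1 x hx hclose
    exact generic_mono (by linarith) (D0H63.MR.lv_spec hT1).1 (hT x hx hclose inferInstance)
  · filter_upwards [h2' ξ hξ hξE K L C, eventually_ge_atTop 1] with T hT hT1 x hx hclose
    refine generic_mono (by linarith) (D0H63.MR.lv_spec hT1).1 (hT x (fun j => ?_) hclose inferInstance)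
    obtain ⟨p, q, hq, hp, hqT, he⟩ := hx j
    exact ⟨p, q, hq, hp, hqT, he⟩

/-- **Theorem.** (1) Let `F` be a family with symplectic monodromy with the set `X` of parameters. There is `ω → ∞` such that for
all `σ > 0` and all sequences `c` of complex numbers: (a) all `ξ` in `U` but a set of Hausdorff dimension at most `|X| / σ`
are good for the points with a common denominator (`Common`), in particular almost all `ξ` in `U` if `σ > 1 / 2` and almost
all real `ξ` in `U` if `σ > 1`; (b) all `ξ` in `U` but a set of dimension at most `2 (|X| - 1) / σ` are good for the points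
with arbitrary denominators (`Independent`), in particular almost all `ξ` in `U` if `σ > (|X| - 1) / |X|` and almost all real
`ξ` in `U` if `σ > 2 (|X| - 1) / |X|`.
(2) The period matrices of all products of hyperelliptic curves `y² = ∏ (x - e i r)`, `r ≤ n i`, `n i` even, with branch
points `e i r` of increasing real parts, are such a family, with `w i = 1`. -/
theorem result :
    (∀ (X : Type) [Fintype X] [DecidableEq X] [Nonempty X] (ι : Type) [Fintype ι] [DecidableEq ι] (n : ι → ℕ)
      (F : SympFam X n), ∃ ω : ℝ → ℕ, Tendsto ω atTop atTop ∧ ∀ (σ : ℝ), 0 < σ → ∀ c : ℕ → ℂ,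
        (dimH {ξ | ξ ∈ F.U ∧ ¬ Good F ω c σ (fun K _ _ T => Common K T) ξ} ≤ ENNReal.ofReal (Fintype.card X / σ) ∧
          (1 / 2 < σ → ∀ᵐ ξ : X → ℂ, ξ ∈ F.U → Good F ω c σ (fun K _ _ T => Common K T) ξ) ∧
          (1 < σ → ∀ᵐ ξ : X → ℝ, (fun j => (ξ j : ℂ)) ∈ F.U →
            Good F ω c σ (fun K _ _ T => Common K T) fun j => (ξ j : ℂ))) ∧
        (dimH {ξ | ξ ∈ F.U ∧ ¬ Good F ω c σ (fun K _ _ T => Independent K T) ξ} ≤
            ENNReal.ofReal (2 * ((Fintype.card X : ℝ) - 1) / σ) ∧
          (((Fintype.card X : ℝ) - 1) / Fintype.card X < σ → ∀ᵐ ξ : X → ℂ, ξ ∈ F.U →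
            Good F ω c σ (fun K _ _ T => Independent K T) ξ) ∧
          (2 * ((Fintype.card X : ℝ) - 1) / Fintype.card X < σ → ∀ᵐ ξ : X → ℝ, (fun j => (ξ j : ℂ)) ∈ F.U →
            Good F ω c σ (fun K _ _ T => Independent K T) fun j => (ξ j : ℂ)))) ∧
    ∀ (ι : Type) [Fintype ι] [DecidableEq ι] (n : ι → ℕ), (∀ i, Even (n i)) →
      ∃ F : SympFam (Σ i, Fin (n i + 1)) n, F.U = Y890.HE.Conf n ∧ (∀ i, F.w i = 1) ∧
        ∀ i e, F.P i e = Y890.HE.pm n e i := by
  refine ⟨fun X _ _ _ ι _ _ n F => ?_, fun _ _ _ n hn => ⟨hyp n hn, rfl, fun _ => rfl, fun _ _ => rfl⟩⟩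
  obtain ⟨ω, hω, h⟩ := main F
  have hd : 1 ≤ Fintype.card X := Fintype.card_pos
  have hd' : (1 : ℝ) ≤ Fintype.card X := by exact_mod_cast hd
  have hd0 : (0 : ℝ) < Fintype.card X := by linarith
  refine ⟨ω, hω, fun σ hσ c => ?_⟩
  obtain ⟨⟨E, hE1, hE2⟩, E', hE'1, hE'2⟩ := h σ hσ c
  refine ⟨?_, ?_⟩
  · obtain ⟨h1, h2, h3⟩ := D0H63.MR.ae_of_dim (by positivity) hE1 hE2
    refine ⟨h1, fun h4 => h2 ?_, fun h4 => h3 ?_⟩
    · rw [div_lt_iff₀ hσ]
      nlinarith
    · rw [div_lt_iff₀ hσ]
      nlinarith
  · have h0 : (0 : ℝ) ≤ 2 * ((Fintype.card X : ℝ) - 1) := by linarith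
    obtain ⟨h1, h2, h3⟩ := D0H63.MR.ae_of_dim (div_nonneg h0 hσ.le) hE'1 hE'2
    refine ⟨h1, fun h4 => h2 ?_, fun h4 => h3 ?_⟩
    · rw [div_lt_iff₀ hσ]
      rw [div_lt_iff₀ hd0] at h4
      linarith
    · rw [div_lt_iff₀ hσ]
      rw [div_lt_iff₀ hd0] at h4
      linarith

end Pool.Agent.Results.MP_5591bc_ag.FieldApproximations
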