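import Pool.Agent.D0H75.HS.Fin
import Pool.Agent.Results.MP_5591bc_ag.HyperellipticGrowingDegrees

/-!
# Periods of algebraic fibres of hyperelliptic families over `S`-units: `O (log log Y)` exceptions, growing degree

`f_1, …, f_N ∈ ℚ[X]` are monic of even degree `n = 2g` with `n` distinct real roots, all different from `0`; `C_j(z)` is the
curve `y² = f_j(x) (x - z)` of genus `g`, and we consider the product of the `N` families. The fibre of `B_P` over a tuple
`(z_1, …, z_N)` is the torsor of the starting file `HyperellipticGrowingDegrees`, under
`{(g_1, …, g_N) : g_j ∈ GSp_(2g), equal multipliers}`. That file bounds the number of the exceptional tuples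
`(1 / t_1, …, 1 / t_N)`, `t_j ≤ T`, for relations of degree `≤ δ` over number fields of degree `≤ δ` by
`C T ^ (N - 1 / (δ + 2) ^ C)`; it says nothing about thin sets of fibres.

Here the coordinates are in such thin sets. Let `b_1, …, b_s ≥ 2` be natural numbers, for instance the elements of a set `S` of
primes, and let `Λ` be any finite set of rational numbers `x = A / B`, where `A` and `B` are products of powers of the `b_i`
with `(A + 1) ^ ((δ + 2) ^ C) ≤ B ≤ Y` (positive `S`-units close to `0`). There are about `(log Y) ^ s` such `x` for fixed `A`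
if the `b_i` are different primes. **For all but at most `(δ + 2) ^ C log log Y` of the elements `x` of `Λ` the periods of the
fibre `y² = f(x') (x' - x)` satisfy the prediction for all the relations of degree at most `δ` over number fields of degree at
most `δ`**, without any bound for the heights of the coefficients. Here `C` depends only on `f`, on the number `s` of the
`b_i` and on the number `q` of the constants (below), not on the `b_i`; `δ` can be as large as a power of `log Y`.
More generally, for `N` families and sets `Λ_1, …, Λ_N` (for `b_(l 1), …, b_(l s)` which may be different for different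
`l`) there are at most `(δ + 2) ^ C log log Y ∑_j ∏_(i ≠ j) |Λ_i|` exceptional points in `Λ_1 × ⋯ × Λ_N`. The relations can
also have coefficients in the field generated by `2πi`, by the periods of the curves `y² = f_j(x) x` and by any given `q`
complex numbers `w`.

The proof. The starting library gives the values of the Cayley coordinates of the period matrices at `1 / (t - g)` for the `g`
in a window, as values at `1 / t` of G-functions which are algebraically independent for different `g`. Here we use the
functions `Z(g z)` instead, where `Z` is the matrix of the coordinates: their singularities are at `α / g`, `α` a root of `f`,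
and the monodromy, which is generated by the transvections of the vanishing cycles, gives the independence if the numbers
`α / g` are different for different `g` (`D0H75/HS/Mon`, `D0H75/HS/Mon2`, `D0H75/HS/Li`). This is true for the numbers `g ^ G`
for a suitable `G`, as `(g' / g) ^ G` is different from the rational ones of the finitely many quotients of roots
(`D0H75/HS/Inp`). The system is a G-system whose constants are polynomial in `g` and exponential in the degree
(`D0H75/HS/Val`), and the theorem of the starting library on the values of G-functions at `1 / t` gives the independence of the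
values at `g ^ G / t`, `g ≤ H`, `(H + 2) ^ ((δ + 2) ^ C) ≤ t`, after the elimination of the constants for all but a bounded
number of the `g` (`D0H75/HS/Win`). By the multiplication of `A` and `B` with the same product of the `b_i` the exponents of `A`
become divisible by `G`, and `O (log log Y)` windows contain all the points (`D0H75/LS/Cov`). In contrast to the Legendre
family at its degenerate fibres (`MP_290158_ag`, `LegendreSUnits`) no logarithms appear, as the fibre over `0` is smooth.
-/

set_option autoImplicit false

open Polynomial NumberField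

namespace Pool.Agent.Results.MP_5591bc_ag.HyperellipticSUnits

open Pool.Agent.Results.MP_5591bc_ag.HyperellipticGrowingDegrees (branch period point Torsor DegreeGPC RelativeGPC)

variable {n N : ℕ}

/-- The statement for the fibres `y² = f_j(x) (x - z_j)`, `z_j` rational: the `z_j` are in the gaps of `0`, the point formed by
the period matrices of the fibres and by `2πi` is on the torsor, all the relations of degree `≤ δ` over number fields of degree
`≤ δ` which hold at the point hold on the torsor, and all the relations of degree `≤ δ` over number fields of degree `≤ δ`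
between the periods of the fibres, the numbers `w`, `2πi` and the periods of the central fibres `y² = f_j(x) x` hold at all
the points of the torsor with `lam = 2πi`. -/
def Good {q : ℕ} (δ : ℕ) (w : Fin q → ℂ) (a : Fin N → Fin n → ℝ) (m : Fin N → Fin (n + 1)) (f : Fin N → ℚ[X])
    (z : Fin N → ℚ) : Prop :=
  (∀ j, StrictMono (branch (a j) (m j) ((z j : ℚ) : ℝ))) ∧
    ((fun j => Matrix.of (period (branch (a j) (m j) ((z j : ℚ) : ℝ)))), (2 * Real.pi * Complex.I : ℂ)) ∈
      Torsor (n := n) (fun j => f j * (X - C (z j))) ∧
    DegreeGPC (fun j => f j * (X - C (z j)))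
      (point (fun j => Matrix.of (period (branch (a j) (m j) ((z j : ℚ) : ℝ)))) (2 * Real.pi * Complex.I)) δ δ ∧
    RelativeGPC w (point (fun j => Matrix.of (period (branch (a j) (m j) 0))) (2 * Real.pi * Complex.I))
      (fun j => f j * (X - C (z j))) (fun j => Matrix.of (period (branch (a j) (m j) ((z j : ℚ) : ℝ)))) δ δ

/-- The products `b_1^{m_1} ⋯ b_s^{m_s}`, `m_i ≥ 0`. -/
def IsProduct {s : ℕ} (b : Fin s → ℕ) (A : ℕ) : Prop := ∃ m : Fin s → ℕ, A = ∏ i, b i ^ m i

/-- The quotients `x = A / B` of two products of powers of the `b_i` with `(A + 1) ^ M ≤ B ≤ Y`. -/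
def Near {s : ℕ} (b : Fin s → ℕ) (M Y : ℕ) (x : ℚ) : Prop :=
  ∃ A B : ℕ, IsProduct b A ∧ IsProduct b B ∧ x = (A : ℚ) / B ∧ (A + 1) ^ M ≤ B ∧ B ≤ Y

open Classical in
/-- **Main result.** Let `f_1, …, f_N ∈ ℚ[X]` be monic of even degree `n` with distinct real roots `a_j`, all different from
`0`; `m_j` is the place of `0` among the roots of `f_j`. For all `q`, `s` there is `C` such that for all `δ`, all tuples of
natural numbers `b_l = (b_(l 1), …, b_(l s))`, `b_(l i) ≥ 2`, `l = 1, …, N`, all `w ∈ ℂ^q`, `Y ≥ 16` and all finite sets
`Λ_1, …, Λ_N` of rational numbers with `Near b_l ((δ + 2) ^ C) Y x` for `x ∈ Λ_l` the statement of degree `δ` holds for all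
but at most `(δ + 2) ^ C log log Y ∑_j ∏_(i ≠ j) |Λ_i|` of the tuples of the fibres `y² = f_j(x) (x - z_j)`, `z_j ∈ Λ_j`. -/
theorem result (hn : Even n) (a : Fin N → Fin n → ℝ) (f : Fin N → ℚ[X])
    (hf : ∀ j, (f j).map (algebraMap ℚ ℝ) = ∏ i, (X - C (a j i))) (m : Fin N → Fin (n + 1))
    (h0 : ∀ j, StrictMono (branch (a j) (m j) 0)) (q s : ℕ) :
    ∃ C₀ : ℕ, ∀ (δ : ℕ) (b : Fin N → Fin s → ℕ), (∀ l i, 2 ≤ b l i) → ∀ (w : Fin q → ℂ) (Y : ℕ), 16 ≤ Y →
      ∀ Λ : Fin N → Finset ℚ, (∀ l, ∀ x ∈ Λ l, Near (b l) ((δ + 2) ^ C₀) Y x) →
      (((Fintype.piFinset Λ).filter fun z => ¬ Good δ w a m f z).card : ℝ) ≤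
      ((δ : ℝ) + 2) ^ C₀ * Real.log (Real.log Y) * ∑ j, ∏ i ∈ Finset.univ.erase j, ((Λ i).card : ℝ) := by
  obtain ⟨C₀, hC⟩ := Pool.Agent.D0H75.HS.tfinS hn N q s a f hf m h0
  refine ⟨C₀, fun δ b hb w Y hY Λ hΛ => hC δ b hb w Y hY Λ fun l x hx => ?_⟩
  obtain ⟨A, B, ⟨u, hu⟩, ⟨v, hv⟩, e1, e2, e3⟩ := hΛ l x hx
  subst hu hv
  exact ⟨u, v, e1, e3, e2⟩

end Pool.Agent.Results.MP_5591bc_ag.HyperellipticSUnits
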